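import Pool.Agent.X66.Perc
import Pool.Agent.Y990.CB.Fin

set_option autoImplicit false

open MeasureTheory Set Filter
open Pool.Agent.X66.Perc

/-!
Site percolation on `Z^d`, `d ≥ 2`, at the critical point: an explicit criterion for the absence of
an infinite cluster, in terms of the number of crossing clusters of one annulus per scale.
-/

namespace Pool.Agent.Results.MP_e13933_pr.CrossingCriterion

open Pool.Agent.Y990.CB in
/-- **Few crossing clusters at the critical point exclude an infinite cluster.**  Let `d ≥ 2`,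
`K ≥ 1` and `R ≥ 2`.  If for infinitely many `N` the `P_{p_c}`-probability that the annulus between
the radii `N` and `R N` has at least `K` crossing clusters is smaller than the explicit constant
`(1 / (2 * 10 ^ 14 K R)) ^ (K (K - 1) / 2) / 2`, then `θ(p_c) = 0`: there is no infinite cluster at
the critical point. -/
theorem result (d : ℕ) (hd : 2 ≤ d) (K R : ℕ) (hK : 1 ≤ K) (hR : 2 ≤ R)
    (h : ∃ᶠ N : ℕ in atTop,
      (P d (pc d)).real {ω | (K : ℕ∞) ≤ (crossing N (R * N) ω).encard} <
        (1 / (2 * 10 ^ 14 * (K : ℝ) * R)) ^ (K.choose 2) / 2) :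
    theta d (pc d) = 0 := by
  by_contra hne
  have hθ : 0 < th (siteM d) (Pool.Agent.Y990.CB.pc (siteM d)) := by
    have h1 : 0 ≤ theta d (pc d) := measureReal_nonneg
    rw [← pc_eq, ← theta_eq]
    exact lt_of_le_of_ne h1 (Ne.symm hne)
  obtain ⟨N0, hN0⟩ := finC hd (siteM d) nd_site hθ K R hK (by omega)
  rw [← pc_eq, ← P_eq] at hN0
  refine h (eventually_atTop.2 ⟨N0 + 1, fun N hN => not_lt.2 ?_⟩)
  refine (hN0 N (by omega)).trans (measureReal_mono ?_ (measure_ne_top _ _))
  rintro ω ⟨x, hx, hxx⟩
  refine cross_many ?_ ω x hx hxx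
  nlinarith

end Pool.Agent.Results.MP_e13933_pr.CrossingCriterion
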