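import Pool.Agent.X66.Perc

set_option autoImplicit false

open MeasureTheory Set Filter
open Pool.Agent.X66.Perc

/-!
Site percolation on `Z^d`, `d ≥ 2`, at and below the critical point: boxes of polynomial size are
mutually disconnected, with probability bounded away from zero.
-/

namespace Pool.Agent.Results.MP_e13933_pr.DisconnectedBoxes

open Pool.Agent.Y990.CB in
/-- **Mutually disconnected boxes of polynomial size at the critical point.**  For every `d ≥ 2`
there is a constant `C` such that for all `K`, `R ≥ 1`, `k` and `N` with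
`C (k + 1) ^ (2 d ^ 2 + 3 d) K ^ 2 R ≤ √N`, all `K` points `z i` of the box of radius `N` at mutual
distance (in the sup norm) at least `N / K`, and all `p ≤ p_c`: with `P_p`-probability at least
`(1 / (2 * 10 ^ 14 K R)) ^ (K (K - 1) / 2)` no open cluster of the box of radius `R N` meets two of
the `K` boxes of radius `k` around the points `z i`. -/
theorem result (d : ℕ) (hd : 2 ≤ d) : ∃ C : ℝ, 1 ≤ C ∧
    ∀ (K R k N : ℕ) (z : Fin K → V d), 1 ≤ R →
    C * ((k : ℝ) + 1) ^ (2 * d ^ 2 + 3 * d) * K ^ 2 * R ≤ √(N : ℝ) →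
    (∀ i, z i ∈ box 0 N) →
    (∀ i j, i ≠ j → ∃ t, (N : ℤ) ≤ K * |z i t - z j t|) →
    ∀ p : unitInterval, p ≤ pc d →
      (1 / (2 * 10 ^ 14 * (K : ℝ) * R)) ^ (K.choose 2) ≤
        (P d p).real {ω | ∀ i j, i ≠ j → ∀ x : V d,
          ¬ ((cluster ω (box 0 (R * N)) x ∩ box (z i) k).Nonempty ∧
            (cluster ω (box 0 (R * N)) x ∩ box (z j) k).Nonempty)} := by
  obtain ⟨C, hC, h⟩ := polyK hd (siteM d) nd_site (Pool.Agent.Y448.CB2.qm_site d)
  refine ⟨C, hC, fun K R k N z hR hN hz hzz p hp => ?_⟩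
  have h1 := h K R k N z hR hN
    (fun i => nm_le.2 (fun t => by have := hz i t; simpa using this))
    (fun i j hij => by
      obtain ⟨t, ht⟩ := hzz i j hij
      have h2 := abs_le_nm (z i - z j) t
      have h3 : (N : ℤ) ≤ K * (nm (z i - z j) : ℤ) :=
        ht.trans (mul_le_mul_of_nonneg_left h2 (Int.natCast_nonneg K))
      exact_mod_cast h3)
  rw [← pc_eq, ← P_eq] at h1
  have hcompl : Dc (siteM d) (R * N) k z =
      (⋃ i : Fin K, ⋃ j : Fin K, ⋃ _ : i ≠ j,
        Lk (siteM d) (Bo 0 (R * N)) (Bo (z i) k) (Bo (z j) k))ᶜ := by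
    ext ω
    simp only [Dc, mem_ofPred_eq, mem_compl_iff, mem_iUnion, not_exists]
  have hm : MeasurableSet (⋃ i : Fin K, ⋃ j : Fin K, ⋃ _ : i ≠ j,
      Lk (siteM d) (Bo 0 (R * N)) (Bo (z i) k) (Bo (z j) k)) :=
    MeasurableSet.iUnion fun i => MeasurableSet.iUnion fun j => MeasurableSet.iUnion fun _ =>
      Lk_meas _ _ _ _
  have hi : Pool.Agent.W783.PC.Inc (⋃ i : Fin K, ⋃ j : Fin K, ⋃ _ : i ≠ j,
      Lk (siteM d) (Bo 0 (R * N)) (Bo (z i) k) (Bo (z j) k)) := by
    intro ω ω' hω h2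
    simp only [mem_iUnion] at h2 ⊢
    obtain ⟨i, j, hij, h3⟩ := h2
    exact ⟨i, j, hij, Lk_inc _ _ _ _ ω ω' hω h3⟩
  rw [hcompl] at h1
  refine (h1.trans (anti hp hm hi)).trans (measureReal_mono ?_ (measure_ne_top _ _))
  intro ω hω
  have hω' : ω ∈ Dc (siteM d) (R * N) k z := by rw [hcompl]; exact hω
  rintro i j hij x ⟨⟨u, hu, hu'⟩, w, hw, hw'⟩
  exact hω' i j hij ⟨u, hu', w, hw', reach_of hu hw⟩

end Pool.Agent.Results.MP_e13933_pr.DisconnectedBoxes
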