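import Pool.Agent.X66.Perc

set_option autoImplicit false

open MeasureTheory Set Filter
open Pool.Agent.X66.Perc

/-!
Site percolation on `Z^d`, `d ≥ 2`, at and below the critical point: no cluster comes close, at a
polynomial scale, to more than half of the vertices of a large box.
-/

namespace Pool.Agent.Results.MP_e13933_pr.NoDenseCluster

open Pool.Agent.Y990.CB in
/-- **No cluster is dense at a polynomial scale in more than half of a box at the critical point.**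
For every `d ≥ 2` there is a constant `C` such that for all `k`, `N`, `R ≥ 1` and `0 < ε ≤ 1` with
`C (k + 1) ^ (2 d ^ 2 + 3 d) R ≤ ε ^ 2 √N` and all `p ≤ p_c`: with `P_p`-probability at least
`ε / (10 ^ 14 R)`, for every open cluster of the box of radius `R N` at most
`(1 / 2 + ε) (2 N + 1) ^ d` vertices of the box of radius `N` are within (sup norm) distance `k`
from this cluster. -/
theorem result (d : ℕ) (hd : 2 ≤ d) : ∃ C : ℝ, 1 ≤ C ∧
    ∀ (k N R : ℕ) (ε : ℝ), 1 ≤ R → 0 < ε → ε ≤ 1 →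
    C * ((k : ℝ) + 1) ^ (2 * d ^ 2 + 3 * d) * R ≤ ε ^ 2 * √(N : ℝ) →
    ∀ p : unitInterval, p ≤ pc d →
      ε / (10 ^ 14 * R) ≤ (P d p).real {ω | ∀ x : V d,
        ({y | y ∈ box 0 N ∧ (cluster ω (box 0 (R * N)) x ∩ box y k).Nonempty}.ncard : ℝ) ≤
          (1 / 2 + ε) * (2 * N + 1) ^ d} := by
  obtain ⟨C, hC, h⟩ := fat hd (siteM d) nd_site (Pool.Agent.Y448.CB2.qm_site d)
  refine ⟨C, hC, fun k N R ε hR hε hε1 hN p hp => ?_⟩
  have h1 := h k N R ε hR hε hε1 hN
  rw [← pc_eq, ← P_eq] at h1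
  set a : ℝ := (1 / 2 + ε) * ((2 * N + 1 : ℕ) : ℝ) ^ d with ha
  have ha' : (1 / 2 + ε) * (2 * (N : ℝ) + 1) ^ d = a := by rw [ha]; push_cast; rfl
  have hi : Pool.Agent.W783.PC.Inc (Nf' (siteM d) (R * N) N k a 0)ᶜ := by
    intro ω ω' hω h2 h3
    apply h2
    intro x hx
    refine le_trans ?_ (h3 x hx)
    have h4 : Fs (siteM d) ω (R * N) N k 0 x ⊆ Fs (siteM d) ω' (R * N) N k 0 x := by
      rintro y ⟨hy, u, hu, hu'⟩
      exact ⟨hy, u, hu, cl_mono hω (subset_refl _) x hu'⟩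
    exact_mod_cast Set.ncard_le_ncard h4 (Fs_fin _ _ _ _ _ _ _)
  have h5 := anti' (d := d) hp (Nf'_meas (siteM d) (R * N) N k a 0) hi
  refine (h1.trans h5).trans (measureReal_mono ?_ (measure_ne_top _ _))
  intro ω hω x
  rw [ha']
  by_cases hne : {y | y ∈ box 0 N ∧ (cluster ω (box 0 (R * N)) x ∩ box y k).Nonempty} = ∅
  · rw [hne, Set.ncard_empty, Nat.cast_zero, ← ha']
    positivity
  · obtain ⟨y0, hy0, u0, hu0, hu0'⟩ := Set.nonempty_iff_ne_empty.2 hne
    have hb : u0 ∈ Bo (0 : Z d) (N + k) := by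
      intro t
      have h6 := abs_le.1 (hy0 t)
      have h7 := abs_le.1 (hu0' t)
      rw [abs_le]
      push_cast
      simp only [Pi.zero_apply, sub_zero] at h6 ⊢
      constructor <;> linarith [h6.1, h6.2, h7.1, h7.2]
    refine le_trans ?_ (hω u0 hb)
    have h4 : {y | y ∈ box 0 N ∧ (cluster ω (box 0 (R * N)) x ∩ box y k).Nonempty} ⊆
        Fs (siteM d) ω (R * N) N k 0 u0 := by
      rintro y ⟨hy, u, hu, hu'⟩
      exact ⟨hy, u, hu', reach_of hu0 hu⟩
    exact_mod_cast Set.ncard_le_ncard h4 (Fs_fin _ _ _ _ _ _ _)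

end Pool.Agent.Results.MP_e13933_pr.NoDenseCluster
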