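import Pool.Agent.W783.Perc.Fin

/-!
# MP_e13933_pr: critical site percolation on `Z^d` with weak and sparse long bonds

Site percolation with parameter `a` on `Z^d = Z × Z^n`, `d = n + 1 ≥ 2`: all the nearest-neighbour
bonds are present. In addition there are long bonds, but only on the lines `Z × {y}`, where all
coordinates of `y` are divisible by `m`: two vertices of such a line at distance `k ≥ 2` are joined by a
long bond with probability `1 - exp (- β k ^ (-s))`, independently, where `1 < s < 2`. The strength
`β > 0` is arbitrarily small, and the density `m ^ (-n)` of the lines with long bonds is as well.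

* For all `β > 0` the critical point `ac(β)` is in `(0,1)`, and at `a = ac(β)` there is no infinite
  cluster.
* `ac(β)` tends to the critical point of site percolation on `Z^d` as `β → 0`.
* For every `ε > 0`, all small `β > 0` and all large `K`, the model in which only the long bonds of
  length at most `K` are used (a model of finite range) has its critical point within `ε` of the one of
  `Z^d`, and its percolation probability at its critical point is at most `ε`.

The theorem and its proof (a renormalisation which shows that percolation is an open condition, the
sharpness of the phase transition, finite-size criteria) are in the starting library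
(`Pool/Agent/W783` and the files it imports), where they were finished but not handed in.
-/

set_option autoImplicit false

open Filter Topology
open Pool.Agent.W783.PC (theta thetaK thetaZ acS acSK acZ)

namespace Pool.Agent.Results.MP_e13933_pr.SparseLongBonds

/-- **No percolation at the critical point for site percolation on `Z^d` with weak sparse long
bonds**, `d = n + 1 ≥ 2`; the limit of vanishing strength; models of finite range. -/
theorem result (n m : ℕ) (s : ℝ) (hn : 1 ≤ n) (hm : 1 ≤ m) (hs : 1 < s) (hs2 : s < 2) :
    (∀ β : NNReal, 0 < β →
      0 < acS n m s β ∧ acS n m s β < 1 ∧ theta n (acS n m s β) 1 β s m = 0) ∧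
    Tendsto (fun β : NNReal => (acS n m s β : ℝ)) (𝓝 0) (𝓝 (acZ n : ℝ)) ∧
    ∀ ε : ℝ, 0 < ε → ∃ β₀ : NNReal, 0 < β₀ ∧ ∀ β : NNReal, 0 < β → β ≤ β₀ →
      ∃ K₀ : ℕ, ∀ K ≥ K₀, |(acSK n m s β K : ℝ) - acZ n| ≤ ε ∧
        thetaK n (acSK n m s β K) 1 β s m K ≤ ε :=
  ⟨(Pool.Agent.W783.PC.site_main hn hm hs hs2).1, (Pool.Agent.W783.PC.site_main hn hm hs hs2).2,
    fun _ hε => Pool.Agent.W783.PC.site_finite hn hm hs hs2 hε⟩

end Pool.Agent.Results.MP_e13933_pr.SparseLongBonds
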